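import Pool.Agent.Y582.EX.All

/-!
# Consistently `Ext^n(Y, c₀) = 0` for all `n ≥ 2` and all Banach spaces `Y` of density at most `κ`

The forcing language is the one of `Pool.Agent.Helper669.Forcing`: a sentence is the set of the
conditions which force it, `fnot`, `fand`, `fall` are the primitive connectives and `fimp`, `fex`
are defined from them classically; a name for a subset of a ground model set `X` is a map sending
`x : X` to a set of conditions, and `meets N` says that the generic filter meets `N`. The sentence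
`MartinHolds P X` is the translation into the forcing language of the proposition `MartinFor X`
(both are in `Pool.Agent.W684.FM.Defs`), which is Martin's axiom for preorders with underlying set
`X` and `X`-indexed families of dense sets. It is equivalent to the usual form of Martin's axiom
for `#X` dense sets, `MartinAxiomCard #X` of `Pool.Agent.W684.FM.Ambient`.
-/

set_option autoImplicit false

namespace Pool.Agent.Results.MP_c1e359_an.AllDegrees

open Cardinal Pool.Agent.Helper669.Forcing Pool.Agent.W684 Pool.Agent.W684.FM Pool.Agent.Y582.EX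
open scoped ZeroAtInfty

/-- `InjRes C₀(ℕ, ℝ)` is the type of the injective resolutions
`0 → c₀ → ℓ_∞(Γ 0) → ℓ_∞(Γ 1) → ...`, and `I.ExtSuccVanishes Y n` says that `Ext^{n+1}(Y, c₀) = 0`,
computed with the resolution `I`.

* For every infinite set `X` of the ground model there is a preordered set of forcing conditions
  such that every condition forces that all cardinals of the ground model are cardinals, that
  `ω₁` is preserved and that Martin's axiom for `#X` dense sets holds (in the two equivalent
  formulations). There are injective resolutions of `c₀`.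
* For every infinite cardinal `κ`, Martin's axiom for `κ` dense sets implies: for all `n ≥ 2`
  (written `n + 2`) and all Banach spaces `Y` with a dense subset of cardinality at most `κ`,
  `Ext^n(Y, c₀) = 0`, for each injective resolution of `c₀`; in particular `Ext^n(c₀(Γ), c₀) = 0`
  for all sets `Γ` with `#Γ ≤ κ`.
* The question: Martin's axiom for `ℵ₁` dense sets implies `Ext²(c₀(ω₁), c₀) = 0`.
* Martin's axiom (for all `κ < 𝔠`) implies that `Ext^n(Y, c₀) = 0` for all `n ≥ 2` and all Banach
  spaces `Y` with a dense subset of cardinality less than `𝔠`. -/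
theorem result :
    ((∀ (X : Type) [Infinite X],
      (∃ (P : Type) (_ : Preorder P), Nonempty P ∧ ∀ p : P,
        p ∈ CardinalsPreserved.{0, 0} P ∧ p ∈ OmegaOnePreserved P ∧ p ∈ MartinHolds P X) ∧
      (MartinFor X ↔ MartinAxiomCard #X)) ∧
      Nonempty (InjRes.{0, 0} C₀(ℕ, ℝ))) ∧
    (∀ κ : Cardinal.{0}, ℵ₀ ≤ κ → MartinAxiomCard κ → ∀ (I : InjRes.{0, 0} C₀(ℕ, ℝ)) (n : ℕ),
      (∀ (Y : Type) [NormedAddCommGroup Y] [NormedSpace ℝ Y] [CompleteSpace Y] (D : Set Y),
        Dense D → #D ≤ κ → I.ExtSuccVanishes Y (n + 1)) ∧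
      ∀ (Γ : Type) [TopologicalSpace Γ] [DiscreteTopology Γ], #Γ ≤ κ →
        I.ExtSuccVanishes C₀(Γ, ℝ) (n + 1)) ∧
    (MartinAxiomCard ℵ₁ → ∀ (Γ : Type) [TopologicalSpace Γ] [DiscreteTopology Γ], #Γ = ℵ₁ →
      ∀ I : InjRes.{0, 0} C₀(ℕ, ℝ), I.ExtSuccVanishes C₀(Γ, ℝ) 1) ∧
    ((∀ κ < Cardinal.continuum.{0}, MartinAxiomCard κ) →
      ∀ (I : InjRes.{0, 0} C₀(ℕ, ℝ)) (n : ℕ) (Y : Type) [NormedAddCommGroup Y]
        [NormedSpace ℝ Y] [CompleteSpace Y] (D : Set Y), Dense D → #D < Cardinal.continuum.{0} →
        I.ExtSuccVanishes Y (n + 1)) := by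
  refine ⟨⟨fun X _ => ⟨exists_forcing X, martinFor_iff⟩, exists_injRes _⟩,
    fun κ hκ hMA I n => ⟨fun Y _ _ _ D hD hDc => ext_card hκ hMA I Y D hD hDc n,
      fun Γ _ _ hΓ => ?_⟩, fun hMA Γ _ _ hΓ I => ?_, fun hMA I n Y _ _ _ D hD hDc => ?_⟩
  · obtain ⟨D, hD, hDc⟩ := dense_c0_card Γ hκ hΓ
    exact ext_card hκ hMA I _ D hD hDc n
  · obtain ⟨D, hD, hDc⟩ := dense_c0_card Γ (Cardinal.aleph0_le_aleph 1) hΓ.le
    exact ext_card (Cardinal.aleph0_le_aleph 1) hMA I _ D hD hDc 0
  · exact ext_card (le_max_right #D ℵ₀) (hMA _ (max_lt hDc Cardinal.aleph0_lt_continuum)) I Y D hD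
      (le_max_left _ _) n

end Pool.Agent.Results.MP_c1e359_an.AllDegrees
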